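import Mathlib
import Pool.Agent.H528.MCG.Nielsen

/-!
# Solvable quotients of the once-punctured torus group of infinite diameter

The fundamental group of the once-punctured torus is the free group on two generators and the
conjugacy classes of its non-separating simple closed curves are those of the primitive elements.
We give a generating set `S` that contains an element of each of these classes, such that
`π / π^{(n)}` has infinite diameter with respect to `S` for all `n ≥ 2`.
-/

set_option autoImplicit false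

namespace Pool.Agent.Results.MP_4b02fd_al.InfiniteDiameter

/-- The fundamental group of the once-punctured torus. -/
abbrev PiT : Type := FreeGroup (Fin 2)

/-- `x` is a primitive element (a member of a basis) of the free group `π` of rank two, i.e. the
image of a fixed basis element under an automorphism. For the once-punctured torus these are
the elements represented by the non-separating simple closed curves. -/
def IsPrimitive (x : PiT) : Prop := ∃ φ : MulAut PiT, φ (FreeGroup.of 0) = x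

/-- The group `G` has finite diameter with respect to `T`: for some `k` every element is a
product of at most `k` elements of `T ∪ T⁻¹`. -/
def FiniteDiameter {G : Type} [Group G] (T : Set G) : Prop :=
  ∃ k : ℕ, ∀ g : G, ∃ l : List G, l.length ≤ k ∧ (∀ s ∈ l, s ∈ T ∨ s⁻¹ ∈ T) ∧ l.prod = g

/-- The assertion of the problem for the once-punctured torus. -/
def FiniteDiameterOfSolvableQuotients : Prop :=
  ∀ S : Set PiT, Subgroup.closure S = ⊤ → (∀ x : PiT, IsPrimitive x → ∃ s ∈ S, IsConj x s) →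
    ∀ n : ℕ, 1 ≤ n → FiniteDiameter ((QuotientGroup.mk' (derivedSeries PiT n)) '' S)

/-! ### the infinite dihedral quotient -/

/-- the infinite dihedral group -/
abbrev D : Type := DihedralGroup 0

/-- translation by `i` -/
def R (i : ℤ) : D := DihedralGroup.r i

/-- reflections -/
def SR (i : ℤ) : D := DihedralGroup.sr i

theorem R_mul_R (i j : ℤ) : R i * R j = R (i + j) := rfl
theorem R_mul_SR (i j : ℤ) : R i * SR j = SR (j - i) := rfl
theorem SR_mul_R (i j : ℤ) : SR i * R j = SR (i + j) := rfl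
theorem SR_mul_SR (i j : ℤ) : SR i * SR j = R (j - i) := rfl
theorem R_inv (i : ℤ) : (R i)⁻¹ = R (-i) := rfl
theorem SR_inv (i : ℤ) : (SR i)⁻¹ = SR i := rfl
theorem R_zero : R 0 = 1 := rfl
theorem cases_D (d : D) : (∃ i, d = R i) ∨ ∃ i, d = SR i := by
  rcases d with i | i
  · exact Or.inl ⟨i, rfl⟩
  · exact Or.inr ⟨i, rfl⟩
theorem R_inj {i j : ℤ} (h : R i = R j) : i = j := DihedralGroup.r.inj h

/-- translations as a homomorphism -/
def Rhom : Multiplicative ℤ →* D where
  toFun i := R (Multiplicative.toAdd i)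
  map_one' := rfl
  map_mul' _ _ := rfl

theorem R_zpow (h : ℤ) : (R 1) ^ h = R h := by
  have h1 := map_zpow Rhom (Multiplicative.ofAdd 1) h
  rw [← ofAdd_zsmul] at h1
  have h2 : Rhom (Multiplicative.ofAdd (h • (1 : ℤ))) = R h := by
    show R (h • (1 : ℤ)) = R h
    rw [smul_eq_mul, mul_one]
  rw [h2] at h1
  exact h1.symm

/-- the homomorphism -/
def psi : PiT →* D := FreeGroup.lift ![R 1, SR 0]

theorem psi0 : psi (FreeGroup.of 0) = R 1 := by simp [psi]

theorem psi1 : psi (FreeGroup.of 1) = SR 0 := by simp [psi]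

/-- the size of the translation part -/
def nrm : D → ℤ
  | DihedralGroup.r i => @abs ℤ _ _ i
  | DihedralGroup.sr i => @abs ℤ _ _ i

theorem nrm_R (i : ℤ) : nrm (R i) = |i| := rfl
theorem nrm_SR (i : ℤ) : nrm (SR i) = |i| := rfl

theorem nrm_mul (x y : D) : nrm (x * y) ≤ nrm x + nrm y := by
  rcases cases_D x with ⟨i, rfl⟩ | ⟨i, rfl⟩ <;> rcases cases_D y with ⟨j, rfl⟩ | ⟨j, rfl⟩
  · rw [R_mul_R, nrm_R, nrm_R, nrm_R]
    exact abs_add_le i j
  · rw [R_mul_SR, nrm_R, nrm_SR, nrm_SR, add_comm]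
    exact abs_sub j i
  · rw [SR_mul_R, nrm_R, nrm_SR, nrm_SR]
    exact abs_add_le i j
  · rw [SR_mul_SR, nrm_R, nrm_SR, nrm_SR, add_comm]
    exact abs_sub j i

theorem nrm_inv (x : D) : nrm x⁻¹ = nrm x := by
  rcases cases_D x with ⟨i, rfl⟩ | ⟨i, rfl⟩
  · rw [R_inv, nrm_R, nrm_R, abs_neg]
  · rw [SR_inv]

/-- the set `S` -/
def S : Set PiT := {x | psi x = R 1 ∨ psi x = R (-1) ∨ psi x = SR 0 ∨ psi x = SR 1}

theorem nrm_S (x : PiT) (hx : x ∈ S) : nrm (psi x) ≤ 1 := by
  rcases hx with h | h | h | h <;> rw [h]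
  · rw [nrm_R]; norm_num
  · rw [nrm_R]; norm_num
  · rw [nrm_SR]; norm_num
  · rw [nrm_SR]; norm_num

theorem closure_S : Subgroup.closure S = ⊤ := by
  rw [eq_top_iff, ← FreeGroup.closure_range_of (Fin 2), Subgroup.closure_le]
  rintro _ ⟨i, rfl⟩
  apply Subgroup.subset_closure
  fin_cases i
  · left; exact psi0
  · right; right; left; exact psi1

/-- the commutator of the two generators -/
def cc : PiT := FreeGroup.of 0 * FreeGroup.of 1 * (FreeGroup.of 0)⁻¹ * (FreeGroup.of 1)⁻¹

/-- automorphisms that map the commutator to a conjugate of itself or of its inverse -/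
def N : Subgroup (MulAut PiT) where
  carrier := {φ | IsConj cc (φ cc) ∨ IsConj cc⁻¹ (φ cc)}
  one_mem' := Or.inl (IsConj.refl _)
  mul_mem' := by
    intro φ ψ hφ hψ
    have key : ∀ (u v : PiT), IsConj u v → IsConj (φ u) (φ v) := by
      intro u v h
      obtain ⟨c, rfl⟩ := isConj_iff.mp h
      exact isConj_iff.mpr ⟨φ c, by rw [map_mul, map_mul, map_inv]⟩
    have kinv : ∀ (u v : PiT), IsConj u v → IsConj u⁻¹ v⁻¹ := by
      intro u v h
      obtain ⟨c, rfl⟩ := isConj_iff.mp h
      exact isConj_iff.mpr ⟨c, by group⟩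
    rcases hψ with h | h
    · have h1 := key _ _ h
      rcases hφ with h2 | h2
      · exact Or.inl (h2.trans h1)
      · exact Or.inr (h2.trans h1)
    · have h1 := key _ _ h
      rw [map_inv] at h1
      rcases hφ with h2 | h2
      · exact Or.inr ((kinv _ _ h2).trans h1)
      · left
        have h3 := kinv _ _ h2
        rw [inv_inv] at h3
        exact h3.trans h1
  inv_mem' := by
    intro φ hφ
    have key : ∀ (u v : PiT), IsConj u v → IsConj (φ⁻¹ u) (φ⁻¹ v) := by
      intro u v h
      obtain ⟨c, rfl⟩ := isConj_iff.mp h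
      exact isConj_iff.mpr ⟨φ⁻¹ c, by rw [map_mul, map_mul, map_inv]⟩
    have kinv : ∀ (u v : PiT), IsConj u v → IsConj u⁻¹ v⁻¹ := by
      intro u v h
      obtain ⟨c, rfl⟩ := isConj_iff.mp h
      exact isConj_iff.mpr ⟨c, by group⟩
    have hid : φ⁻¹ (φ cc) = cc := by
      rw [← MulAut.mul_apply, inv_mul_cancel, MulAut.one_apply]
    rcases hφ with h | h
    · left
      have h1 := key _ _ h
      rw [hid] at h1
      exact h1.symm
    · right
      have h1 := key _ _ h
      rw [hid, map_inv] at h1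
      have h2 := kinv _ _ h1
      rw [inv_inv] at h2
      exact h2.symm

/-- an automorphism from an endomorphism with inverse -/
def mk (a b a' b' : PiT)
    (h0 : (FreeGroup.lift ![a', b'] : PiT →* PiT) a = FreeGroup.of 0)
    (h1 : (FreeGroup.lift ![a', b'] : PiT →* PiT) b = FreeGroup.of 1)
    (h2 : (FreeGroup.lift ![a, b] : PiT →* PiT) a' = FreeGroup.of 0)
    (h3 : (FreeGroup.lift ![a, b] : PiT →* PiT) b' = FreeGroup.of 1) : MulAut PiT :=
  MonoidHom.toMulEquiv (FreeGroup.lift ![a, b]) (FreeGroup.lift ![a', b'])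
    (by
      apply FreeGroup.ext_hom
      intro i
      fin_cases i
      · simpa using h0
      · simpa using h1)
    (by
      apply FreeGroup.ext_hom
      intro i
      fin_cases i
      · simpa using h2
      · simpa using h3)

theorem N_top : N = ⊤ := by
  let σ : MulAut PiT := mk (FreeGroup.of 1) (FreeGroup.of 0) (FreeGroup.of 1) (FreeGroup.of 0) (by simp) (by simp) (by simp) (by simp)
  let ε : MulAut PiT := mk (FreeGroup.of 0)⁻¹ (FreeGroup.of 1) (FreeGroup.of 0)⁻¹ (FreeGroup.of 1) (by simp) (by simp) (by simp) (by simp)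
  let μ : MulAut PiT := mk (FreeGroup.of 0 * FreeGroup.of 1) (FreeGroup.of 1) (FreeGroup.of 0 * (FreeGroup.of 1)⁻¹) (FreeGroup.of 1)
    (by simp) (by simp) (by simp) (by simp)
  have hσ0 : σ (FreeGroup.of 0) = FreeGroup.of 1 := by
    show (FreeGroup.lift ![FreeGroup.of 1, FreeGroup.of 0] : PiT →* PiT) (FreeGroup.of 0) = _
    simp
  have hσ1 : σ (FreeGroup.of 1) = FreeGroup.of 0 := by
    show (FreeGroup.lift ![FreeGroup.of 1, FreeGroup.of 0] : PiT →* PiT) (FreeGroup.of 1) = _
    simp
  have hε0 : ε (FreeGroup.of 0) = (FreeGroup.of 0)⁻¹ := by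
    show (FreeGroup.lift ![(FreeGroup.of 0)⁻¹, FreeGroup.of 1] : PiT →* PiT) (FreeGroup.of 0) = _
    simp
  have hε1 : ε (FreeGroup.of 1) = FreeGroup.of 1 := by
    show (FreeGroup.lift ![(FreeGroup.of 0)⁻¹, FreeGroup.of 1] : PiT →* PiT) (FreeGroup.of 1) = _
    simp
  have hμ0 : μ (FreeGroup.of 0) = FreeGroup.of 0 * FreeGroup.of 1 := by
    show (FreeGroup.lift ![FreeGroup.of 0 * FreeGroup.of 1, FreeGroup.of 1] : PiT →* PiT) (FreeGroup.of 0) = _
    simp
  have hμ1 : μ (FreeGroup.of 1) = FreeGroup.of 1 := by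
    show (FreeGroup.lift ![FreeGroup.of 0 * FreeGroup.of 1, FreeGroup.of 1] : PiT →* PiT) (FreeGroup.of 1) = _
    simp
  refine Pool.Agent.H528.Nielsen.nielsen N (σ := σ) (ε := ε) (μ := μ) ?_ ?_ ?_ ?_
    hσ0 hσ1 hε0 hε1 hμ0 hμ1
  · right
    show IsConj cc⁻¹ (σ cc)
    unfold cc
    simp only [map_mul, map_inv, hσ0, hσ1]
    refine isConj_iff.mpr ⟨1, by group⟩
  · right
    show IsConj cc⁻¹ (ε cc)
    unfold cc
    simp only [map_mul, map_inv, hε0, hε1]
    refine isConj_iff.mpr ⟨(FreeGroup.of 0)⁻¹, by group⟩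
  · left
    show IsConj cc (μ cc)
    unfold cc
    simp only [map_mul, map_inv, hμ0, hμ1]
    refine isConj_iff.mpr ⟨1, by group⟩
  · intro g
    left
    show IsConj cc (MulAut.conj g cc)
    rw [MulAut.conj_apply]
    exact isConj_iff.mpr ⟨g, rfl⟩

/-- the commutator of the images of a basis -/
theorem basis_comm (φ : MulAut PiT) :
    psi (φ (FreeGroup.of 0)) * psi (φ (FreeGroup.of 1)) * (psi (φ (FreeGroup.of 0)))⁻¹ *
      (psi (φ (FreeGroup.of 1)))⁻¹ = R 2 ∨
    psi (φ (FreeGroup.of 0)) * psi (φ (FreeGroup.of 1)) * (psi (φ (FreeGroup.of 0)))⁻¹ *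
      (psi (φ (FreeGroup.of 1)))⁻¹ = R (-2) := by
  have h : φ ∈ N := by rw [N_top]; exact Subgroup.mem_top φ
  have hc : psi cc = R 2 := by
    unfold cc
    simp only [map_mul, map_inv, psi0, psi1]
    rw [R_mul_SR, R_inv, SR_mul_R, SR_inv, SR_mul_SR]
    norm_num
  have hφ : psi (φ cc) = psi (φ (FreeGroup.of 0)) * psi (φ (FreeGroup.of 1)) *
      (psi (φ (FreeGroup.of 0)))⁻¹ * (psi (φ (FreeGroup.of 1)))⁻¹ := by
    unfold cc
    simp only [map_mul, map_inv]
  rw [← hφ]
  have hconj : ∀ (d : D) (i : ℤ), d * R i * d⁻¹ = R i ∨ d * R i * d⁻¹ = R (-i) := by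
    intro d i
    rcases cases_D d with ⟨j, rfl⟩ | ⟨j, rfl⟩
    · left
      rw [R_mul_R, R_inv, R_mul_R]
      congr 1
      ring
    · right
      rw [SR_mul_R, SR_inv, SR_mul_SR]
      congr 1
      ring
  rcases h with h | h
  · obtain ⟨c, hc'⟩ := isConj_iff.mp h
    have h1 : psi (φ cc) = psi c * R 2 * (psi c)⁻¹ := by
      rw [← hc', map_mul, map_mul, map_inv, hc]
    rw [h1]
    exact hconj _ _
  · obtain ⟨c, hc'⟩ := isConj_iff.mp h
    have h1 : psi (φ cc) = psi c * R (-2) * (psi c)⁻¹ := by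
      rw [← hc', map_mul, map_mul, map_inv, map_inv, hc, R_inv]
    rw [h1]
    have h2 := hconj (psi c) (-2)
    rw [show -(-2 : ℤ) = 2 by norm_num] at h2
    exact h2.symm

/-- every primitive element is conjugate to an element of `S` -/
theorem prim_S (x : PiT) (hx : IsPrimitive x) : ∃ s ∈ S, IsConj x s := by
  obtain ⟨φ, rfl⟩ := hx
  have hb := basis_comm φ
  rcases cases_D (psi (φ (FreeGroup.of 0))) with ⟨i, hx⟩ | ⟨i, hx⟩
  · -- a translation
    refine ⟨φ (FreeGroup.of 0), ?_, IsConj.refl _⟩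
    rcases cases_D (psi (φ (FreeGroup.of 1))) with ⟨j, hy⟩ | ⟨j, hy⟩
    · exfalso
      rw [hx, hy, R_mul_R, R_inv, R_inv, R_mul_R, R_mul_R] at hb
      rcases hb with h | h
      · have h2 := R_inj h
        omega
      · have h2 := R_inj h
        omega
    · rw [hx, hy, R_mul_SR, R_inv, SR_inv, SR_mul_R, SR_mul_SR] at hb
      rcases hb with h | h
      · left
        have h2 := R_inj h
        have h4 : i = 1 := by omega
        show psi (φ (FreeGroup.of 0)) = R 1
        rw [hx, h4]
      · right; left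
        have h2 := R_inj h
        have h4 : i = -1 := by omega
        show psi (φ (FreeGroup.of 0)) = R (-1)
        rw [hx, h4]
  · -- a reflection
    obtain ⟨h, hh⟩ : ∃ h : ℤ, i - 2 * h = 0 ∨ i - 2 * h = 1 := by
      rcases Int.emod_two_eq_zero_or_one i with h | h
      · exact ⟨i / 2, Or.inl (by omega)⟩
      · exact ⟨i / 2, Or.inr (by omega)⟩
    refine ⟨(FreeGroup.of 0) ^ h * φ (FreeGroup.of 0) * ((FreeGroup.of 0) ^ h)⁻¹, ?_,
      isConj_iff.mpr ⟨(FreeGroup.of 0) ^ h, rfl⟩⟩
    have h1 : psi ((FreeGroup.of 0) ^ h * φ (FreeGroup.of 0) * ((FreeGroup.of 0) ^ h)⁻¹) =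
        SR (i - 2 * h) := by
      rw [map_mul, map_mul, map_inv, map_zpow, psi0, R_zpow, hx, R_mul_SR, R_inv, SR_mul_R]
      congr 1
      ring
    rcases hh with hh | hh
    · right; right; left
      rw [h1, hh]
    · right; right; right
      rw [h1, hh]

/-! ### the quotients -/

theorem psi_derived : derivedSeries PiT 2 ≤ psi.ker := by
  have h1 : (derivedSeries PiT 2).map psi ≤ derivedSeries D 2 :=
    map_derivedSeries_le_derivedSeries psi 2
  have hr : ∀ i : ℤ, R i ∈ Subgroup.zpowers (R 1) := fun i =>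
    Subgroup.mem_zpowers_iff.mpr ⟨i, R_zpow i⟩
  have h2 : derivedSeries D 1 ≤ Subgroup.zpowers (R 1) := by
    rw [derivedSeries_one, commutator_def, Subgroup.commutator_le]
    intro x _ y _
    rw [commutatorElement_def]
    rcases cases_D x with ⟨i, rfl⟩ | ⟨i, rfl⟩ <;> rcases cases_D y with ⟨j, rfl⟩ | ⟨j, rfl⟩
    · rw [R_mul_R, R_inv, R_inv, R_mul_R, R_mul_R]
      exact hr _
    · rw [R_mul_SR, R_inv, SR_inv, SR_mul_R, SR_mul_SR]
      exact hr _
    · rw [SR_mul_R, R_inv, SR_inv, SR_mul_SR, R_mul_R]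
      exact hr _
    · rw [SR_mul_SR, SR_inv, SR_inv, R_mul_SR, SR_mul_SR]
      exact hr _
  have h3 : derivedSeries D 2 = ⊥ := by
    rw [eq_bot_iff, derivedSeries_succ, Subgroup.commutator_le]
    intro x hx y hy
    obtain ⟨i, rfl⟩ := Subgroup.mem_zpowers_iff.mp (h2 hx)
    obtain ⟨j, rfl⟩ := Subgroup.mem_zpowers_iff.mp (h2 hy)
    rw [Subgroup.mem_bot, commutatorElement_def]
    group
  rw [h3] at h1
  intro x hx
  have := h1 (Subgroup.mem_map_of_mem psi hx)
  rwa [Subgroup.mem_bot] at this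

/-- the homomorphism on the quotient -/
def psiQ (n : ℕ) (hn : 2 ≤ n) : PiT ⧸ derivedSeries PiT n →* D :=
  QuotientGroup.lift (derivedSeries PiT n) psi
    (fun _ hx => psi_derived (derivedSeries_antitone PiT hn hx))

theorem infinite (n : ℕ) (hn : 2 ≤ n) :
    ¬ FiniteDiameter ((QuotientGroup.mk' (derivedSeries PiT n)) '' S) := by
  rintro ⟨k, hk⟩
  obtain ⟨l, hl, hS, hprod⟩ := hk (QuotientGroup.mk' (derivedSeries PiT n) ((FreeGroup.of 0) ^ (k + 1)))
  have h1 : ∀ l : List (PiT ⧸ derivedSeries PiT n),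
      (∀ s ∈ l, s ∈ (QuotientGroup.mk' (derivedSeries PiT n)) '' S ∨
        s⁻¹ ∈ (QuotientGroup.mk' (derivedSeries PiT n)) '' S) →
      nrm (psiQ n hn l.prod) ≤ l.length := by
    intro l
    induction l with
    | nil =>
      intro _
      rw [List.prod_nil, map_one]
      exact le_refl (0 : ℤ)
    | cons a l ih =>
      intro h
      rw [List.prod_cons, map_mul]
      have h2 := ih (fun s hs => h s (List.mem_cons_of_mem _ hs))
      have h3 : nrm (psiQ n hn a) ≤ 1 := by
        rcases h a List.mem_cons_self with ⟨x, hx, hxa⟩ | ⟨x, hx, hxa⟩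
        · rw [← hxa]
          exact nrm_S x hx
        · rw [← nrm_inv, ← map_inv, ← hxa]
          exact nrm_S x hx
      have h4 := nrm_mul (psiQ n hn a) (psiQ n hn l.prod)
      rw [List.length_cons]
      push_cast
      linarith
  have h2 := h1 l hS
  rw [hprod] at h2
  have h3 : psiQ n hn (QuotientGroup.mk' (derivedSeries PiT n) ((FreeGroup.of 0) ^ (k + 1))) =
      R ((k + 1 : ℕ) : ℤ) := by
    show psi ((FreeGroup.of 0) ^ (k + 1)) = _
    rw [map_pow, psi0, ← zpow_natCast, R_zpow]
  rw [h3, nrm_R, abs_of_nonneg (by positivity)] at h2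
  omega

/-- **The answer is no.** For the once-punctured torus (`π` free of rank two) there is a
generating set `S` of `π` that contains an element of the conjugacy class of every primitive
element, such that for every `n ≥ 2` the group `π / π^{(n)}` has infinite diameter with respect
to `S`. In particular the assertion of the problem fails. -/
theorem result :
    (∃ S : Set PiT, Subgroup.closure S = ⊤ ∧
      (∀ x : PiT, IsPrimitive x → ∃ s ∈ S, IsConj x s) ∧
      ∀ n : ℕ, 2 ≤ n → ¬ FiniteDiameter ((QuotientGroup.mk' (derivedSeries PiT n)) '' S)) ∧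
    ¬ FiniteDiameterOfSolvableQuotients := by
  refine ⟨⟨S, closure_S, prim_S, infinite⟩, ?_⟩
  intro h
  exact infinite 2 (le_refl 2) (h S closure_S prim_S 2 (by norm_num))

end Pool.Agent.Results.MP_4b02fd_al.InfiniteDiameter
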